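import Mathlib
import Pool.Agent.H318R2.Cr.Prod

set_option autoImplicit false

namespace Pool.Agent.H398R2.RK

open Finset Pool.Agent.H318R2.Cr

open scoped Classical

/-- `n ↦ n^(-σ)` as a monoid hom with zero. -/
noncomputable def pw (σ : ℝ) (hσ : σ ≠ 0) : ℕ →* ℝ where
  toFun n := (n : ℝ) ^ (-σ)
  map_one' := by simp
  map_mul' a b := by
    push_cast
    exact Real.mul_rpow (by positivity) (by positivity)

theorem pow_lt_one' {σ : ℝ} (hσ : 0 < σ) {p : ℕ} (hp : p.Prime) : (p : ℝ) ^ (-σ) < 1 := by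
  apply Real.rpow_lt_one_of_one_lt_of_neg
  · exact_mod_cast hp.one_lt
  · linarith

theorem smooth_tsum {σ : ℝ} (hσ : 0 < σ) (v L : ℕ) :
    ∑ n ∈ (Icc 1 L).filter (fun n => ∀ p : ℕ, p.Prime → p ∣ n → p ≤ v), (n : ℝ) ^ (-σ) ≤
      ∏ p ∈ Pz v, (1 - (p : ℝ) ^ (-σ))⁻¹ := by
  classical
  have h := EulerProduct.summable_and_hasSum_factoredNumbers_prod_filter_prime_geometric
    (f := pw σ hσ.ne') (by
      intro p hp
      have h1 : (pw σ hσ.ne') p = (p : ℝ) ^ (-σ) := rfl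
      rw [h1, Real.norm_of_nonneg (by positivity)]
      exact pow_lt_one' hσ hp) (Ioc 0 v)
  have h2 := h.2
  have e1 : (∏ p ∈ (Ioc 0 v) with p.Prime, (1 - (pw σ hσ.ne') p)⁻¹) = ∏ p ∈ Pz v, (1 - (p : ℝ) ^ (-σ))⁻¹ := rfl
  rw [e1] at h2
  -- subset sum
  set S := (Icc 1 L).filter (fun n => ∀ p : ℕ, p.Prime → p ∣ n → p ≤ v) with hS
  have hmem : ∀ n ∈ S, n ∈ Nat.factoredNumbers (Ioc 0 v) := by
    intro n hn
    rw [hS, mem_filter, mem_Icc] at hn
    rw [Nat.mem_factoredNumbers]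
    refine ⟨by omega, fun p hp => ?_⟩
    have hpp := Nat.prime_of_mem_primeFactorsList hp
    rw [mem_Ioc]
    exact ⟨hpp.pos, hn.2 p hpp (Nat.dvd_of_mem_primeFactorsList hp)⟩
  have h3 := sum_le_hasSum (S.attach.image (fun n => (⟨n.1, hmem n.1 n.2⟩ : Nat.factoredNumbers (Ioc 0 v))))
    (fun i _ => by
      have : (0 : ℝ) ≤ (i.1 : ℝ) ^ (-σ) := by positivity
      exact this) h2
  rw [sum_image (by
    intro a _ b _ hab
    have := congrArg Subtype.val hab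
    exact Subtype.ext this)] at h3
  refine le_trans (le_of_eq ?_) h3
  rw [← sum_attach]
  rfl

theorem euler_le : ∃ C : ℝ, 0 < C ∧ ∀ (η : ℝ) (v : ℕ), 0 ≤ η → η ≤ 1 / 4 → 2 ≤ v →
    ∏ p ∈ Pz v, (1 - (p : ℝ) ^ (-(1 - η)))⁻¹ ≤
      C * Real.log v * Real.exp (4 * η * (v : ℝ) ^ η * (Real.log v + C)) := by
  obtain ⟨c₁, c₂, hc₁, _, hV⟩ := cz_bounds
  obtain ⟨C, hM⟩ := Helper923.HMertens.mertens_log
  have hC : 0 ≤ C := (abs_nonneg _).trans (hM 1 le_rfl)
  refine ⟨max (1 / c₁) C, lt_max_of_lt_left (by positivity), fun η v hη0 hη1 hv => ?_⟩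
  have hlv : 0 < Real.log v := Real.log_pos (by exact_mod_cast (by omega : 1 < v))
  -- pointwise
  have hpt : ∀ p ∈ Pz v, (1 - (p : ℝ) ^ (-(1 - η)))⁻¹ ≤
      (1 - 1 / (p : ℝ))⁻¹ * Real.exp (4 * η * (v : ℝ) ^ η * (Real.log p / p)) := by
    intro p hp
    obtain ⟨hpp, hpv⟩ := mem_Pz.1 hp
    have hp2 : (2 : ℝ) ≤ p := by exact_mod_cast hpp.two_le
    have hp0 : (0 : ℝ) < p := by linarith
    have hpv' : (p : ℝ) ≤ v := by exact_mod_cast hpv
    have hlp : 0 < Real.log p := Real.log_pos (by linarith)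
    -- p^{-(1-η)} ≤ 3/4
    have h1 : (p : ℝ) ^ (-(1 - η)) ≤ 3 / 4 := by
      have h2 : (p : ℝ) ^ (-(1 - η)) ≤ (2 : ℝ) ^ (-(1 - η)) :=
        Real.rpow_le_rpow_of_nonpos (by norm_num) hp2 (by linarith)
      have h3 : (2 : ℝ) ^ (-(1 - η)) ≤ (2 : ℝ) ^ (-(1 / 2) : ℝ) :=
        Real.rpow_le_rpow_of_exponent_le (by norm_num) (by linarith)
      have h4 : (2 : ℝ) ^ (-(1 / 2) : ℝ) ≤ 3 / 4 := by
        rw [Real.rpow_neg (by norm_num), ← Real.sqrt_eq_rpow]
        rw [inv_le_comm₀ (by positivity) (by norm_num)]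
        rw [show ((3 : ℝ) / 4)⁻¹ = 4 / 3 by norm_num]
        apply Real.le_sqrt_of_sq_le; norm_num
      linarith
    have h5 : 1 / (p : ℝ) ≤ 1 / 2 := one_div_le_one_div_of_le (by norm_num) hp2
    have h6 : 0 < 1 - (p : ℝ) ^ (-(1 - η)) := by linarith
    have h7 : 0 < 1 - 1 / (p : ℝ) := by linarith
    rw [← div_eq_inv_mul, inv_eq_one_div, div_le_div_iff₀ h6 h7, one_mul]
    -- 1 - 1/p ≤ exp(..) (1 - p^{-1+η})
    set t : ℝ := 4 * η * (v : ℝ) ^ η * (Real.log p / p) with ht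
    have ht0 : 0 ≤ t := by positivity
    have e1 : (p : ℝ) ^ (-(1 - η)) = 1 / p * Real.exp (η * Real.log p) := by
      rw [show -(1 - η) = (-1) + η by ring, Real.rpow_add hp0, Real.rpow_neg_one, one_div]
      congr 1
      rw [Real.rpow_def_of_pos hp0]; ring_nf
    have h8 : Real.exp (η * Real.log p) - 1 ≤ η * Real.log p * (v : ℝ) ^ η := by
      have h9 : 1 - η * Real.log p ≤ Real.exp (-(η * Real.log p)) := by
        have := Real.add_one_le_exp (-(η * Real.log p)); linarith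
      have h10 : Real.exp (η * Real.log p) * Real.exp (-(η * Real.log p)) = 1 := by
        rw [← Real.exp_add]; simp
      have h11 : Real.exp (η * Real.log p) ≤ (v : ℝ) ^ η := by
        have : Real.exp (η * Real.log p) = (p : ℝ) ^ η := by
          rw [Real.rpow_def_of_pos hp0]; ring_nf
        rw [this]
        exact Real.rpow_le_rpow hp0.le hpv' hη0
      have h12 : Real.exp (η * Real.log p) * (1 - η * Real.log p) ≤ 1 := by
        have := mul_le_mul_of_nonneg_left h9 (Real.exp_pos (η * Real.log p)).le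
        rwa [h10] at this
      have h13 : 0 ≤ η * Real.log p := by positivity
      nlinarith [mul_le_mul_of_nonneg_left h11 h13]
    have h14 : 1 + t ≤ Real.exp t := by have := Real.add_one_le_exp t; linarith
    have h15 : (p : ℝ) ^ (-(1 - η)) - 1 / p ≤ t / 4 := by
      rw [e1, ht]
      have : 1 / (p : ℝ) * Real.exp (η * Real.log p) - 1 / p =
        (Real.exp (η * Real.log p) - 1) / p := by ring
      rw [this]
      calc (Real.exp (η * Real.log p) - 1) / p ≤ (η * Real.log p * (v : ℝ) ^ η) / p := by gcongr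
        _ = _ := by ring
    have h16 : 1 - 1 / (p : ℝ) ≤ (1 + t) * (1 - (p : ℝ) ^ (-(1 - η))) := by
      have h17 : t * (1 / 4) ≤ t * (1 - (p : ℝ) ^ (-(1 - η))) :=
        mul_le_mul_of_nonneg_left (by linarith) ht0
      nlinarith
    calc 1 - 1 / (p : ℝ) ≤ (1 + t) * (1 - (p : ℝ) ^ (-(1 - η))) := h16
      _ ≤ _ := mul_le_mul_of_nonneg_right h14 h6.le
  have hprod : ∏ p ∈ Pz v, (1 - (p : ℝ) ^ (-(1 - η)))⁻¹ ≤
      ∏ p ∈ Pz v, ((1 - 1 / (p : ℝ))⁻¹ * Real.exp (4 * η * (v : ℝ) ^ η * (Real.log p / p))) := by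
    apply prod_le_prod
    · intro p hp
      obtain ⟨hpp, hpv⟩ := mem_Pz.1 hp
      have := pow_lt_one' (σ := 1 - η) (by linarith) hpp
      exact inv_nonneg.2 (by linarith)
    · exact hpt
  refine hprod.trans ?_
  rw [prod_mul_distrib, ← Real.exp_sum, ← mul_sum, prod_inv_distrib]
  have hV1 := (hV v hv).1
  have hVp := V_pos v
  have hVeq : ∏ p ∈ Pz v, (1 - 1 / (p : ℝ)) = V v := rfl
  rw [hVeq]
  have hb1 : (V v)⁻¹ ≤ max (1 / c₁) C * Real.log v := by
    have : (V v)⁻¹ ≤ 1 / c₁ * Real.log v := by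
      rw [inv_le_iff_one_le_mul₀ hVp]
      have : 1 / c₁ * Real.log v * V v = (V v * Real.log v) / c₁ := by ring
      rw [this, le_div_iff₀ hc₁]; linarith
    exact this.trans (mul_le_mul_of_nonneg_right (le_max_left _ _) hlv.le)
  have hb2 : ∑ p ∈ Pz v, Real.log p / (p : ℝ) ≤ Real.log v + max (1 / c₁) C := by
    have h1 := (abs_le.1 (hM v (by omega))).2
    have e0 : Icc 1 v = Ioc 0 v := by ext; simp [mem_Icc, mem_Ioc]; omega
    rw [e0] at h1
    unfold Pz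
    have := le_max_right (1 / c₁) C
    linarith
  have hm0 : 0 ≤ max (1 / c₁) C * Real.log v := (inv_nonneg.2 hVp.le).trans hb1
  gcongr

/-- Rankin's trick. -/
theorem smooth_core : ∃ C : ℝ, 0 < C ∧ ∀ (η : ℝ) (v L : ℕ), 0 ≤ η → η ≤ 1 / 4 → 2 ≤ v →
    (((Icc 1 L).filter (fun n => ∀ p : ℕ, p.Prime → p ∣ n → p ≤ v)).card : ℝ) ≤
      (L : ℝ) ^ (1 - η) * (C * Real.log v * Real.exp (4 * η * (v : ℝ) ^ η * (Real.log v + C))) := by
  obtain ⟨C, hC, h⟩ := euler_le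
  refine ⟨C, hC, fun η v L hη0 hη1 hv => ?_⟩
  have h1 := h η v hη0 hη1 hv
  have h2 := smooth_tsum (σ := 1 - η) (by linarith) v L
  set S := (Icc 1 L).filter (fun n => ∀ p : ℕ, p.Prime → p ∣ n → p ≤ v) with hS
  calc (S.card : ℝ) = ∑ n ∈ S, (1 : ℝ) := by simp
    _ ≤ ∑ n ∈ S, (L : ℝ) ^ (1 - η) * (n : ℝ) ^ (-(1 - η)) := by
        apply sum_le_sum
        intro n hn
        rw [hS, mem_filter, mem_Icc] at hn
        have hn0 : (0 : ℝ) < n := by exact_mod_cast hn.1.1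
        have hnL : (n : ℝ) ≤ L := by exact_mod_cast hn.1.2
        rw [Real.rpow_neg hn0.le, ← div_eq_mul_inv, one_le_div (by positivity)]
        exact Real.rpow_le_rpow hn0.le hnL (by linarith)
    _ = (L : ℝ) ^ (1 - η) * ∑ n ∈ S, (n : ℝ) ^ (-(1 - η)) := by rw [mul_sum]
    _ ≤ _ := by
        apply mul_le_mul_of_nonneg_left (h2.trans h1) (by positivity)

end Pool.Agent.H398R2.RK
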