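import Mathlib
import Pool.Agent.H398R2.RK.Smooth

set_option autoImplicit false

namespace Pool.Agent.H398R2.RK

open Finset Filter

open scoped Classical

theorem ev_log_le (c : ℝ) (hc : 0 < c) : ∀ᶠ t : ℝ in atTop, Real.log t ≤ c * Real.sqrt t := by
  have h := isLittleO_log_rpow_atTop (r := 1 / 2) (by norm_num)
  have h1 := h.bound hc
  filter_upwards [h1, eventually_ge_atTop 1] with t ht ht1
  rw [Real.norm_of_nonneg (Real.log_nonneg ht1), Real.norm_of_nonneg (by positivity)] at ht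
  rw [Real.sqrt_eq_rpow]
  exact ht

theorem ev_six (C : ℝ) (hC : 0 < C) : ∀ᶠ t : ℝ in atTop,
    Real.log C + 2 * Real.sqrt t * Real.log t + 20 * C * t * Real.sqrt t / Real.exp t ≤ t := by
  have h1 := ev_log_le (1 / 8) (by norm_num)
  filter_upwards [h1, eventually_ge_atTop 1, eventually_ge_atTop (4 * Real.log C),
    eventually_ge_atTop (80 * C)] with t ht ht1 ht2 ht3
  have hs0 : 0 < Real.sqrt t := Real.sqrt_pos.2 (by linarith)
  have hs1 : Real.sqrt t * Real.sqrt t = t := Real.mul_self_sqrt (by linarith)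
  have a1 : 2 * Real.sqrt t * Real.log t ≤ t / 4 := by nlinarith
  have hst : Real.sqrt t ≤ t := by
    rw [Real.sqrt_le_left (by linarith)]; nlinarith
  have hexp : t ^ 2 / 2 ≤ Real.exp t := by
    have := Real.quadratic_le_exp_of_nonneg (x := t) (by linarith)
    nlinarith
  have a2 : 20 * C * t * Real.sqrt t / Real.exp t ≤ t / 2 := by
    rw [div_le_iff₀ (Real.exp_pos t)]
    have h3 : 20 * C * t * Real.sqrt t ≤ 20 * C * t * t := by gcongr
    have h4 : t / 2 * (t ^ 2 / 2) ≤ t / 2 * Real.exp t := by gcongr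
    nlinarith [mul_le_mul_of_nonneg_right ht3 (show 0 ≤ t ^ 2 by positivity)]
  linarith

theorem ev_all (C : ℝ) (hC : 0 < C) : ∃ t₀ : ℝ, ∀ t : ℝ, t₀ ≤ t → 1 ≤ t ∧ 1 ≤ Real.log t ∧
    20 * t ≤ Real.exp t ∧
    Real.log C + 2 * Real.sqrt t * Real.log t + 20 * C * t * Real.sqrt t / Real.exp t ≤ t := by
  have h := (((eventually_ge_atTop (1 : ℝ)).and
    (Real.tendsto_log_atTop.eventually_ge_atTop 1)).and (ev_six C hC)).and (eventually_ge_atTop (40 : ℝ))
  obtain ⟨t₀, ht⟩ := eventually_atTop.1 h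
  refine ⟨t₀, fun t h0 => ?_⟩
  obtain ⟨⟨⟨h1, h2⟩, h3⟩, h4⟩ := ht t h0
  refine ⟨h1, h2, ?_, h3⟩
  have := Real.quadratic_le_exp_of_nonneg (x := t) (by linarith)
  nlinarith

/-- smooth numbers: `#{m ≤ L : m is v-smooth} ≤ L / (log y)^3`, `log v = log y log₃ y/(10 log₂ y)` -/
theorem smooth_count : ∃ y₀ : ℝ, ∀ y : ℝ, y₀ ≤ y → ∀ L : ℕ, y ≤ L →
    (((Finset.Icc 1 L).filter (fun m => ∀ p : ℕ, p.Prime → p ∣ m →
      Real.log p ≤ Real.log y * Real.log (Real.log (Real.log y)) /
        (10 * Real.log (Real.log y)))).card : ℝ) ≤ L / (Real.log y) ^ 3 := by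
  obtain ⟨C, hC, hcore⟩ := smooth_core
  obtain ⟨t₀, hev⟩ := ev_all C hC
  refine ⟨Real.exp (Real.exp t₀), fun y hy L hyL => ?_⟩
  have hy0 : 0 < y := (Real.exp_pos _).trans_le hy
  have hL1' : Real.exp t₀ ≤ Real.log y := by
    rw [← Real.log_exp (Real.exp t₀)]; exact Real.log_le_log (Real.exp_pos _) hy
  have hly : 0 < Real.log y := (Real.exp_pos _).trans_le hL1'
  set t := Real.log (Real.log y) with ht
  have htt : t₀ ≤ t := by
    rw [← Real.log_exp t₀]; exact Real.log_le_log (Real.exp_pos _) hL1'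
  obtain ⟨h1, h2, h3, h4⟩ := hev t htt
  have hLe : Real.log y = Real.exp t := by rw [ht, Real.exp_log hly]
  set V0 := Real.log y * Real.log t / (10 * t) with hV0
  have ht0 : 0 < t := by linarith
  have hV1 : 1 ≤ V0 := by
    rw [hV0, le_div_iff₀ (by positivity), hLe]
    nlinarith [Real.exp_pos t]
  set v : ℕ := ⌊Real.exp V0⌋₊ with hv
  have hv2 : 2 ≤ v := by
    rw [hv, Nat.le_floor_iff (Real.exp_pos _).le]
    have := Real.add_one_le_exp V0
    push_cast; linarith
  have hvle : (v : ℝ) ≤ Real.exp V0 := Nat.floor_le (Real.exp_pos _).le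
  have hv0 : (0 : ℝ) < v := by exact_mod_cast (by omega : 0 < v)
  have hlv : Real.log v ≤ V0 := by
    rw [← Real.log_exp V0]; exact Real.log_le_log hv0 hvle
  have hlv0 : 0 ≤ Real.log v := Real.log_nonneg (by exact_mod_cast (by omega : 1 ≤ v))
  set η : ℝ := 5 * t / Real.log y with hη
  have hη0 : 0 ≤ η := by positivity
  have hη1 : η ≤ 1 / 4 := by
    rw [hη, div_le_iff₀ hly, hLe]; linarith
  have hc := hcore η v L hη0 hη1 hv2
  have hsub : (Finset.Icc 1 L).filter (fun m => ∀ p : ℕ, p.Prime → p ∣ m →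
      Real.log p ≤ V0) ⊆ (Icc 1 L).filter (fun n => ∀ p : ℕ, p.Prime → p ∣ n → p ≤ v) := by
    intro m hm
    rw [mem_filter] at hm ⊢
    refine ⟨hm.1, fun p hp hd => ?_⟩
    rw [hv, Nat.le_floor_iff (Real.exp_pos _).le]
    have hp0 : (0 : ℝ) < p := by exact_mod_cast hp.pos
    rw [← Real.log_le_iff_le_exp hp0]
    exact hm.2 p hp hd
  refine (Nat.cast_le.2 (card_le_card hsub)).trans (hc.trans ?_)
  have hL0 : (0 : ℝ) < L := hy0.trans_le hyL
  -- L^(1-η) ≤ L * exp (-5t)
  have k1 : (L : ℝ) ^ (1 - η) ≤ L * Real.exp (-(5 * t)) := by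
    rw [Real.rpow_sub hL0, Real.rpow_one, div_eq_mul_inv]
    apply mul_le_mul_of_nonneg_left _ hL0.le
    rw [Real.exp_neg]
    apply inv_anti₀ (Real.exp_pos _)
    have : Real.exp (5 * t) = y ^ η := by
      rw [Real.rpow_def_of_pos hy0, hη]; congr 1; field_simp
    rw [this]
    exact Real.rpow_le_rpow hy0.le hyL hη0
  have k2 : (v : ℝ) ^ η ≤ Real.sqrt t := by
    have e1 : Real.sqrt t = Real.exp (Real.log t / 2) := by
      rw [Real.sqrt_eq_rpow, Real.rpow_def_of_pos ht0]; ring_nf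
    rw [e1]
    calc (v : ℝ) ^ η ≤ (Real.exp V0) ^ η := Real.rpow_le_rpow hv0.le hvle hη0
      _ = Real.exp (V0 * η) := by rw [← Real.exp_mul]
      _ = _ := by
        congr 1
        rw [hV0, hη]
        field_simp
        ring
  have hlt0 : 0 ≤ Real.log t := by linarith
  have k3 : 4 * η * (v : ℝ) ^ η * (Real.log v + C) ≤
      2 * Real.sqrt t * Real.log t + 20 * C * t * Real.sqrt t / Real.exp t := by
    calc 4 * η * (v : ℝ) ^ η * (Real.log v + C) ≤ 4 * η * Real.sqrt t * (V0 + C) := by gcongr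
      _ = _ := by
        rw [hV0, hη, hLe]
        have := Real.exp_pos t
        field_simp
        ring
  have k4 : C * Real.log v ≤ C * Real.exp t := by
    gcongr
    refine hlv.trans ?_
    rw [hV0, hLe, div_le_iff₀ (by positivity)]
    have : Real.log t ≤ t := (Real.log_le_sub_one_of_pos ht0).trans (by linarith)
    nlinarith [Real.exp_pos t]
  have k5 : C * Real.exp (2 * Real.sqrt t * Real.log t + 20 * C * t * Real.sqrt t / Real.exp t) ≤
      Real.exp t := by
    have e1 : C = Real.exp (Real.log C) := (Real.exp_log hC).symm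
    calc C * Real.exp (2 * Real.sqrt t * Real.log t + 20 * C * t * Real.sqrt t / Real.exp t)
        = Real.exp (Real.log C + (2 * Real.sqrt t * Real.log t + 20 * C * t * Real.sqrt t / Real.exp t)) := by
          rw [Real.exp_add (Real.log C), Real.exp_log hC]
      _ ≤ _ := by
          apply Real.exp_le_exp.2; linarith
  calc (L : ℝ) ^ (1 - η) * (C * Real.log v * Real.exp (4 * η * (v : ℝ) ^ η * (Real.log v + C)))
      ≤ (L * Real.exp (-(5 * t))) * (C * Real.exp t *
        Real.exp (2 * Real.sqrt t * Real.log t + 20 * C * t * Real.sqrt t / Real.exp t)) := by gcongr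
    _ = (L * Real.exp (-(5 * t))) * Real.exp t * (C *
        Real.exp (2 * Real.sqrt t * Real.log t + 20 * C * t * Real.sqrt t / Real.exp t)) := by ring
    _ ≤ (L * Real.exp (-(5 * t))) * Real.exp t * Real.exp t := by gcongr
    _ = L / (Real.log y) ^ 3 := by
        rw [hLe, ← Real.exp_nat_mul, mul_assoc, mul_assoc, ← Real.exp_add, ← Real.exp_add,
          div_eq_mul_inv, ← Real.exp_neg]
        congr 2
        push_cast; ring

end Pool.Agent.H398R2.RK
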