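import Mathlib
import Pool.Agent.H398R2.RK.Count
import Pool.Agent.H398R2.RK.Greedy

set_option autoImplicit false

namespace Pool.Agent.H398R2.RK

open Finset Filter Pool.Agent.H318R2.Cr

open scoped Classical

/-- Chebyshev: number of primes up to `L`. -/
theorem primes_le (L : ℕ) (hL : 2 ≤ L) :
    (((Icc 1 L).filter Nat.Prime).card : ℝ) ≤ 10 * (L : ℝ) / Real.log L := by
  have hL1 : (1 : ℝ) < L := by exact_mod_cast (by omega : 1 < L)
  have h := Chebyshev.pi_le_log4_mul_div (x := (L : ℝ)) hL1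
  rw [Nat.floor_natCast] at h
  have e : ((Icc 1 L).filter Nat.Prime).card = Nat.primeCounting L := by
    rw [Nat.primeCounting, Nat.primeCounting', Nat.count_eq_card_filter_range]
    congr 1
    ext p
    simp only [mem_filter, mem_Icc, mem_range]
    constructor
    · rintro ⟨h1, h2⟩; exact ⟨by omega, h2⟩
    · rintro ⟨h1, h2⟩; exact ⟨⟨h2.pos, by omega⟩, h2⟩
  rw [e]
  refine h.trans ?_
  have hl : 0 < Real.log L := Real.log_pos hL1
  have h4 : Real.log 4 ≤ 2 := by
    have : Real.log 4 = 2 * Real.log 2 := by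
      rw [show (4 : ℝ) = 2 ^ 2 by norm_num, Real.log_pow]; norm_num
    have := Real.log_two_lt_d9
    linarith
  have hs : Real.log (Real.sqrt L) = Real.log L / 2 := Real.log_sqrt (by positivity)
  rw [hs]
  have hsq : Real.sqrt L * Real.sqrt L = L := Real.mul_self_sqrt (by positivity)
  have hs0 : 0 < Real.sqrt L := Real.sqrt_pos.2 (by linarith)
  have h5 : Real.log L ≤ 2 * Real.sqrt L := by
    have := Real.log_le_sub_one_of_pos hs0
    rw [hs] at this; linarith
  have h6 : Real.sqrt L ≤ 2 * L / Real.log L := by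
    rw [le_div_iff₀ hl]
    nlinarith
  have h7 : Real.log 4 * L / (Real.log L / 2) ≤ 4 * L / Real.log L := by
    rw [div_div_eq_mul_div]
    apply div_le_div_of_nonneg_right _ hl.le
    nlinarith
  have h8 : 10 * (L : ℝ) / Real.log L = 4 * L / Real.log L + 6 * L / Real.log L := by ring
  have h9 : 2 * (L : ℝ) / Real.log L ≤ 6 * L / Real.log L := by
    apply div_le_div_of_nonneg_right _ hl.le
    nlinarith
  linarith

theorem ev_surv : ∃ t₀ : ℝ, ∀ t : ℝ, t₀ ≤ t → 1 ≤ t ∧ 1 ≤ Real.log t ∧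
    20 * t ^ 2 ≤ Real.exp t ∧ 100 ≤ Real.exp t ∧ Real.log t ≤ t ∧ 4 * t ≤ Real.exp t := by
  have h := ((eventually_ge_atTop (1 : ℝ)).and
    (Real.tendsto_log_atTop.eventually_ge_atTop 1)).and (eventually_ge_atTop (200 : ℝ))
  obtain ⟨t₀, ht⟩ := eventually_atTop.1 h
  refine ⟨t₀, fun t h0 => ?_⟩
  obtain ⟨⟨h1, h2⟩, h4⟩ := ht t h0
  have h5 := Real.quadratic_le_exp_of_nonneg (x := t) (by linarith)
  have h6 : t ^ 3 / 6 ≤ Real.exp t := by
    have h7 := Real.pow_div_factorial_le_exp t (by linarith) 3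
    norm_num [Nat.factorial] at h7
    linarith
  have h8 : Real.log t ≤ t - 1 := Real.log_le_sub_one_of_pos (by linarith)
  refine ⟨h1, h2, ?_, ?_, by linarith, by nlinarith⟩
  · nlinarith [sq_nonneg t]
  · nlinarith

theorem prod_one_sub (S : Finset ℕ) (hS : ∀ p ∈ S, p.Prime ∧ 3 ≤ p) (k : ℕ) (hk : 1 ≤ k)
    (v₀ : ℝ) (hv₀ : 0 < v₀) (hS2 : ∀ p ∈ S, v₀ < (p : ℝ)) :
    ∏ p ∈ S.filter (fun p => ¬ p ∣ k), (1 - 1 / ((p : ℝ) - 1)) ≤
      (∏ p ∈ S, (1 - 1 / (p : ℝ))) * Real.exp (4 * Real.log k / v₀) := by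
  have h1 : ∏ p ∈ S.filter (fun p => ¬ p ∣ k), (1 - 1 / ((p : ℝ) - 1)) ≤
      ∏ p ∈ S.filter (fun p => ¬ p ∣ k), (1 - 1 / (p : ℝ)) := by
    apply Finset.prod_le_prod
    · intro p hp
      have h2 : (3 : ℝ) ≤ p := by exact_mod_cast (hS p (mem_filter.1 hp).1).2
      have h3 : 1 / ((p : ℝ) - 1) ≤ 1 := by
        rw [div_le_one (by linarith)]; linarith
      linarith
    · intro p hp
      have h2 : (3 : ℝ) ≤ p := by exact_mod_cast (hS p (mem_filter.1 hp).1).2
      have h3 : 1 / (p : ℝ) ≤ 1 / ((p : ℝ) - 1) :=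
        one_div_le_one_div_of_le (by linarith) (by linarith)
      linarith
  have h2 : ∏ p ∈ S, (1 - 1 / (p : ℝ)) =
      (∏ p ∈ S.filter (fun p => ¬ p ∣ k), (1 - 1 / (p : ℝ))) *
        ∏ p ∈ S.filter (fun p => p ∣ k), (1 - 1 / (p : ℝ)) := by
    rw [← prod_filter_mul_prod_filter_not S (fun p => p ∣ k)]
    ring
  have h3 : 1 ≤ (∏ p ∈ S.filter (fun p => p ∣ k), (1 - 1 / (p : ℝ))) *
      Real.exp (4 * Real.log k / v₀) := by
    -- each factor (1-1/p) ≥ exp(-2/p) ≥ exp(-2/v₀)
    have h4 : Real.exp (-(4 * Real.log k / v₀)) ≤ ∏ p ∈ S.filter (fun p => p ∣ k), (1 - 1 / (p : ℝ)) := by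
      have h5 : ∏ p ∈ S.filter (fun p => p ∣ k), Real.exp (-(2 / v₀)) ≤
          ∏ p ∈ S.filter (fun p => p ∣ k), (1 - 1 / (p : ℝ)) := by
        apply Finset.prod_le_prod (fun _ _ => (Real.exp_pos _).le)
        intro p hp
        have hpS := (mem_filter.1 hp).1
        have hp3 : (3 : ℝ) ≤ p := by exact_mod_cast (hS p hpS).2
        have hpv := hS2 p hpS
        have h6 := exp_le_one_sub (x := 1 / (p : ℝ)) (by positivity)
          (one_div_le_one_div_of_le (by norm_num) (by linarith))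
        refine le_trans (Real.exp_le_exp.2 ?_) h6
        have h7 : 1 / (p : ℝ) ≤ 1 / v₀ := one_div_le_one_div_of_le hv₀ hpv.le
        have h8 : (1 / (p : ℝ)) ^ 2 ≤ 1 / 3 * (1 / p) := by
          rw [sq]
          apply mul_le_mul_of_nonneg_right _ (by positivity)
          exact one_div_le_one_div_of_le (by norm_num) hp3
        have h9 : 2 / v₀ = 2 * (1 / v₀) := by ring
        have h10 : 0 < 1 / (p : ℝ) := by positivity
        nlinarith
      refine le_trans ?_ h5
      rw [prod_const, ← Real.exp_nat_mul]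
      apply Real.exp_le_exp.2
      have h11 : ((S.filter (fun p => p ∣ k)).card : ℝ) ≤ 2 * Real.log k := by
        have h12 : 2 ^ (S.filter (fun p => p ∣ k)).card ≤ k := by
          have h13 : (S.filter (fun p => p ∣ k)) ⊆ k.primeFactors := by
            intro p hp
            rw [mem_filter] at hp
            exact Nat.mem_primeFactors.2 ⟨(hS p hp.1).1, hp.2, by omega⟩
          calc 2 ^ (S.filter (fun p => p ∣ k)).card ≤ 2 ^ k.primeFactors.card :=
                Nat.pow_le_pow_right (by norm_num) (card_le_card h13)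
            _ ≤ ∏ p ∈ k.primeFactors, p := by
                rw [← prod_const]
                exact Finset.prod_le_prod' fun p hp => (Nat.prime_of_mem_primeFactors hp).two_le
            _ ≤ k := Nat.le_of_dvd (by omega) (Nat.prod_primeFactors_dvd k)
        have h14 : ((S.filter (fun p => p ∣ k)).card : ℝ) * Real.log 2 ≤ Real.log k := by
          rw [← Real.log_pow]
          apply Real.log_le_log (by positivity)
          exact_mod_cast h12
        have h15 := Real.log_two_gt_d9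
        have h16 : (0 : ℝ) ≤ ((S.filter (fun p => p ∣ k)).card : ℝ) := by positivity
        nlinarith
      have h17 : 4 * Real.log k / v₀ = 2 * Real.log k * (2 / v₀) := by ring
      rw [h17]
      have : ((S.filter (fun p => p ∣ k)).card : ℝ) * (2 / v₀) ≤ 2 * Real.log k * (2 / v₀) := by
        gcongr
      linarith
    calc (1 : ℝ) = Real.exp (-(4 * Real.log k / v₀)) * Real.exp (4 * Real.log k / v₀) := by
          rw [← Real.exp_add]; simp
      _ ≤ _ := by gcongr
  have h5 : 0 ≤ ∏ p ∈ S.filter (fun p => ¬ p ∣ k), (1 - 1 / (p : ℝ)) := by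
    apply prod_nonneg
    intro p hp
    exact (one_sub_inv_pos (hS p (mem_filter.1 hp).1).1).le
  calc ∏ p ∈ S.filter (fun p => ¬ p ∣ k), (1 - 1 / ((p : ℝ) - 1))
      ≤ (∏ p ∈ S.filter (fun p => ¬ p ∣ k), (1 - 1 / (p : ℝ))) * 1 := by rw [mul_one]; exact h1
    _ ≤ (∏ p ∈ S.filter (fun p => ¬ p ∣ k), (1 - 1 / (p : ℝ))) *
        ((∏ p ∈ S.filter (fun p => p ∣ k), (1 - 1 / (p : ℝ))) * Real.exp (4 * Real.log k / v₀)) := by
        gcongr
    _ = _ := by rw [h2]; ring

end Pool.Agent.H398R2.RK
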