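import Mathlib
import Pool.Agent.H398R2.RK.Surv

set_option autoImplicit false

namespace Pool.Agent.H398R2.RK

open Finset Pool.Agent.H318R2.Cr

open scoped Classical

/-- Greedy choice of residue classes inside prescribed sets of classes. -/
theorem greedy_gen (P : Finset ℕ) (A : ℕ → Finset ℕ)
    (hA : ∀ p ∈ P, A p ⊆ range p ∧ (A p).Nonempty) :
    ∀ R : Finset ℕ, ∃ b : ℕ → ℕ, (∀ p ∈ P, b p ∈ A p) ∧
      ((R.filter (fun k => ∀ p ∈ P, ¬ k ≡ b p [MOD p])).card : ℝ) ≤
        ∑ k ∈ R, ∏ p ∈ P.filter (fun p => k % p ∈ A p), (1 - 1 / ((A p).card : ℝ)) := by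
  induction P using Finset.induction_on with
  | empty => intro R; exact ⟨fun _ => 0, by simp, by simp⟩
  | insert p P hpP ih =>
    intro R
    have ihP := ih (fun q hq => hA q (mem_insert_of_mem hq))
    obtain ⟨hAp, hAne⟩ := hA p (mem_insert_self _ _)
    set w : ℕ → ℝ := fun k => ∏ q ∈ P.filter (fun q => k % q ∈ A q), (1 - 1 / ((A q).card : ℝ)) with hw
    have hone : ∀ q ∈ insert p P, 1 / ((A q).card : ℝ) ≤ 1 := by
      intro q hq
      have h1 : 1 ≤ (A q).card := card_pos.2 (hA q hq).2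
      have h2 : (1 : ℝ) ≤ (A q).card := by exact_mod_cast h1
      rw [div_le_one (by linarith)]; exact h2
    have hw0 : ∀ k, 0 ≤ w k := by
      intro k
      apply prod_nonneg
      intro q hq
      have := hone q (mem_insert_of_mem (mem_filter.1 hq).1)
      linarith
    have hc1 : (0 : ℝ) < (A p).card := by exact_mod_cast card_pos.2 hAne
    have havg : ∃ c ∈ A p, ∑ k ∈ R.filter (fun k => ¬ k ≡ c [MOD p]), w k ≤
        ∑ k ∈ R, ∏ q ∈ (insert p P).filter (fun q => k % q ∈ A q), (1 - 1 / ((A q).card : ℝ)) := by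
      by_contra hcon
      push Not at hcon
      have h1 := sum_lt_sum_of_nonempty hAne hcon
      rw [sum_const, nsmul_eq_mul] at h1
      have h2 : ∑ c ∈ A p, ∑ k ∈ R.filter (fun k => ¬ k ≡ c [MOD p]), w k =
          ∑ k ∈ R, w k * ((A p).filter (fun c => ¬ k ≡ c [MOD p])).card := by
        simp_rw [sum_filter]
        rw [sum_comm]
        apply sum_congr rfl
        intro k _
        rw [← sum_filter, sum_const, nsmul_eq_mul, mul_comm]
      rw [h2, mul_sum] at h1
      apply lt_irrefl _ (lt_of_lt_of_le h1 _)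
      apply sum_le_sum
      intro k _
      by_cases hd : k % p ∈ A p
      · have h3 : (insert p P).filter (fun q => k % q ∈ A q) = insert p (P.filter (fun q => k % q ∈ A q)) := by
          rw [filter_insert, if_pos hd]
        rw [h3, prod_insert (by simp [hpP])]
        have h4 : ((A p).filter (fun c => ¬ k ≡ c [MOD p])).card ≤ (A p).card - 1 := by
          have h5 : (A p).filter (fun c => ¬ k ≡ c [MOD p]) ⊆ (A p).erase (k % p) := by
            intro c hc
            rw [mem_filter] at hc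
            rw [mem_erase]
            refine ⟨?_, hc.1⟩
            rintro rfl
            exact hc.2 (Nat.mod_modEq k p).symm
          have h7 := card_le_card h5
          rwa [card_erase_of_mem hd] at h7
        have h5 : (((A p).filter (fun c => ¬ k ≡ c [MOD p])).card : ℝ) ≤ ((A p).card : ℝ) - 1 := by
          have h6 : 1 ≤ (A p).card := card_pos.2 hAne
          have : (((A p).card - 1 : ℕ) : ℝ) = ((A p).card : ℝ) - 1 := by
            rw [Nat.cast_sub h6]; simp
          rw [← this]; exact_mod_cast h4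
        calc w k * (((A p).filter (fun c => ¬ k ≡ c [MOD p])).card : ℝ)
            ≤ w k * (((A p).card : ℝ) - 1) := mul_le_mul_of_nonneg_left h5 (hw0 k)
          _ = _ := by
              simp only [hw]
              field_simp
      · have h3 : (insert p P).filter (fun q => k % q ∈ A q) = P.filter (fun q => k % q ∈ A q) := by
          rw [filter_insert, if_neg hd]
        rw [h3]
        have h4 : (((A p).filter (fun c => ¬ k ≡ c [MOD p])).card : ℝ) ≤ ((A p).card : ℝ) := by
          exact_mod_cast card_filter_le _ _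
        calc w k * (((A p).filter (fun c => ¬ k ≡ c [MOD p])).card : ℝ)
            ≤ w k * ((A p).card : ℝ) := mul_le_mul_of_nonneg_left h4 (hw0 k)
          _ = _ := by rw [mul_comm]
    obtain ⟨c, hc, hle⟩ := havg
    obtain ⟨b, hb, hbc⟩ := ihP (R.filter (fun k => ¬ k ≡ c [MOD p]))
    refine ⟨Function.update b p c, ?_, ?_⟩
    · intro q hq
      rcases mem_insert.1 hq with rfl | hq
      · rw [Function.update_self]; exact hc
      · have : q ≠ p := fun h => hpP (h ▸ hq)
        rw [Function.update_of_ne this]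
        exact hb q hq
    · refine le_trans ?_ (hbc.trans hle)
      have h8 : R.filter (fun k => ∀ q ∈ insert p P, ¬ k ≡ Function.update b p c q [MOD q]) ⊆
          (R.filter (fun k => ¬ k ≡ c [MOD p])).filter (fun k => ∀ q ∈ P, ¬ k ≡ b q [MOD q]) := by
        intro k hk
        rw [mem_filter] at hk
        rw [mem_filter, mem_filter]
        refine ⟨⟨hk.1, ?_⟩, ?_⟩
        · have := hk.2 p (mem_insert_self _ _)
          rwa [Function.update_self] at this
        · intro q hq
          have h9 : q ≠ p := fun h => hpP (h ▸ hq)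
          have := hk.2 q (mem_insert_of_mem hq)
          rwa [Function.update_of_ne h9] at this
      exact_mod_cast card_le_card h8

/-- dropping few factors from a product of `1 - 1/p` -/
theorem prod_drop (S E : Finset ℕ) (hS : ∀ p ∈ S, p.Prime ∧ 3 ≤ p) (hE : E ⊆ S)
    (v₀ N : ℝ) (hv₀ : 0 < v₀) (hS2 : ∀ p ∈ E, v₀ < (p : ℝ)) (hN : (E.card : ℝ) ≤ N) :
    ∏ p ∈ S \ E, (1 - 1 / (p : ℝ)) ≤ (∏ p ∈ S, (1 - 1 / (p : ℝ))) * Real.exp (2 * N / v₀) := by
  have h2 : ∏ p ∈ S, (1 - 1 / (p : ℝ)) =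
      (∏ p ∈ S \ E, (1 - 1 / (p : ℝ))) * ∏ p ∈ E, (1 - 1 / (p : ℝ)) := by
    rw [prod_sdiff hE]
  have h3 : 1 ≤ (∏ p ∈ E, (1 - 1 / (p : ℝ))) * Real.exp (2 * N / v₀) := by
    have h4 : Real.exp (-(2 * N / v₀)) ≤ ∏ p ∈ E, (1 - 1 / (p : ℝ)) := by
      have h5 : ∏ p ∈ E, Real.exp (-(2 / v₀)) ≤ ∏ p ∈ E, (1 - 1 / (p : ℝ)) := by
        apply Finset.prod_le_prod (fun _ _ => (Real.exp_pos _).le)
        intro p hp
        have hpS := hE hp
        have hp3 : (3 : ℝ) ≤ p := by exact_mod_cast (hS p hpS).2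
        have hpv := hS2 p hp
        have h6 := exp_le_one_sub (x := 1 / (p : ℝ)) (by positivity)
          (one_div_le_one_div_of_le (by norm_num) (by linarith))
        refine le_trans (Real.exp_le_exp.2 ?_) h6
        have h7 : 1 / (p : ℝ) ≤ 1 / v₀ := one_div_le_one_div_of_le hv₀ hpv.le
        have h8 : (1 / (p : ℝ)) ^ 2 ≤ 1 / 3 * (1 / p) := by
          rw [sq]
          apply mul_le_mul_of_nonneg_right _ (by positivity)
          exact one_div_le_one_div_of_le (by norm_num) hp3
        have h9 : 2 / v₀ = 2 * (1 / v₀) := by ring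
        have h10 : 0 < 1 / (p : ℝ) := by positivity
        nlinarith
      refine le_trans ?_ h5
      rw [prod_const, ← Real.exp_nat_mul]
      apply Real.exp_le_exp.2
      have h17 : 2 * N / v₀ = N * (2 / v₀) := by ring
      rw [h17]
      have : (E.card : ℝ) * (2 / v₀) ≤ N * (2 / v₀) := by gcongr
      linarith
    calc (1 : ℝ) = Real.exp (-(2 * N / v₀)) * Real.exp (2 * N / v₀) := by
          rw [← Real.exp_add]; simp
      _ ≤ _ := by gcongr
  have h5 : 0 ≤ ∏ p ∈ S \ E, (1 - 1 / (p : ℝ)) := by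
    apply prod_nonneg
    intro p hp
    exact (one_sub_inv_pos (hS p (mem_sdiff.1 hp).1).1).le
  calc ∏ p ∈ S \ E, (1 - 1 / (p : ℝ))
      = (∏ p ∈ S \ E, (1 - 1 / (p : ℝ))) * 1 := by rw [mul_one]
    _ ≤ (∏ p ∈ S \ E, (1 - 1 / (p : ℝ))) *
        ((∏ p ∈ E, (1 - 1 / (p : ℝ))) * Real.exp (2 * N / v₀)) := by gcongr
    _ = _ := by rw [h2]; ring

/-- dropping a set of primes of small harmonic sum -/
theorem prod_drop' (S E : Finset ℕ) (hS : ∀ p ∈ S, p.Prime ∧ 3 ≤ p) (hE : E ⊆ S)
    (N : ℝ) (hN : ∑ p ∈ E, 1 / (p : ℝ) ≤ N) :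
    ∏ p ∈ S \ E, (1 - 1 / (p : ℝ)) ≤ (∏ p ∈ S, (1 - 1 / (p : ℝ))) * Real.exp (2 * N) := by
  have h2 : ∏ p ∈ S, (1 - 1 / (p : ℝ)) =
      (∏ p ∈ S \ E, (1 - 1 / (p : ℝ))) * ∏ p ∈ E, (1 - 1 / (p : ℝ)) := by
    rw [prod_sdiff hE]
  have h3 : 1 ≤ (∏ p ∈ E, (1 - 1 / (p : ℝ))) * Real.exp (2 * N) := by
    have h4 : Real.exp (-(2 * N)) ≤ ∏ p ∈ E, (1 - 1 / (p : ℝ)) := by
      have h5 : ∏ p ∈ E, Real.exp (-(2 * (1 / (p : ℝ)))) ≤ ∏ p ∈ E, (1 - 1 / (p : ℝ)) := by
        apply Finset.prod_le_prod (fun _ _ => (Real.exp_pos _).le)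
        intro p hp
        have hpS := hE hp
        have hp3 : (3 : ℝ) ≤ p := by exact_mod_cast (hS p hpS).2
        have h6 := exp_le_one_sub (x := 1 / (p : ℝ)) (by positivity)
          (one_div_le_one_div_of_le (by norm_num) (by linarith))
        refine le_trans (Real.exp_le_exp.2 ?_) h6
        have h8 : (1 / (p : ℝ)) ^ 2 ≤ 1 / 3 * (1 / p) := by
          rw [sq]
          apply mul_le_mul_of_nonneg_right _ (by positivity)
          exact one_div_le_one_div_of_le (by norm_num) hp3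
        have h10 : 0 < 1 / (p : ℝ) := by positivity
        nlinarith
      refine le_trans ?_ h5
      rw [← Real.exp_sum]
      apply Real.exp_le_exp.2
      rw [sum_neg_distrib, ← mul_sum]
      linarith
    calc (1 : ℝ) = Real.exp (-(2 * N)) * Real.exp (2 * N) := by
          rw [← Real.exp_add]; simp
      _ ≤ _ := by gcongr
  have h5 : 0 ≤ ∏ p ∈ S \ E, (1 - 1 / (p : ℝ)) := by
    apply prod_nonneg
    intro p hp
    exact (one_sub_inv_pos (hS p (mem_sdiff.1 hp).1).1).le
  calc ∏ p ∈ S \ E, (1 - 1 / (p : ℝ))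
      = (∏ p ∈ S \ E, (1 - 1 / (p : ℝ))) * 1 := by rw [mul_one]
    _ ≤ (∏ p ∈ S \ E, (1 - 1 / (p : ℝ))) *
        ((∏ p ∈ E, (1 - 1 / (p : ℝ))) * Real.exp (2 * N)) := by gcongr
    _ = _ := by rw [h2]; ring

/-- number of prime factors -/
theorem card_primeFactors_le (k : ℕ) (hk : 1 ≤ k) : (k.primeFactors.card : ℝ) ≤ 2 * Real.log k := by
  have h12 : 2 ^ k.primeFactors.card ≤ k := by
    calc 2 ^ k.primeFactors.card ≤ ∏ p ∈ k.primeFactors, p := by
          rw [← prod_const]
          exact Finset.prod_le_prod' fun p hp => (Nat.prime_of_mem_primeFactors hp).two_le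
      _ ≤ k := Nat.le_of_dvd (by omega) (Nat.prod_primeFactors_dvd k)
  have h14 : (k.primeFactors.card : ℝ) * Real.log 2 ≤ Real.log k := by
    rw [← Real.log_pow]
    apply Real.log_le_log (by positivity)
    exact_mod_cast h12
  have h15 := Real.log_two_gt_d9
  have h16 : (0 : ℝ) ≤ (k.primeFactors.card : ℝ) := by positivity
  nlinarith

end Pool.Agent.H398R2.RK
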