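import Mathlib
import Pool.Agent.H398R2.RK.Rec1

set_option autoImplicit false
set_option maxHeartbeats 4000000

namespace Pool.Agent.H398R2.RK

open Finset Filter Pool.Agent.H318R2.Cr

open scoped Classical

theorem ev_rec (K : ℕ) : ∃ t₀ : ℝ, ∀ t : ℝ, t₀ ≤ t → 1 ≤ t ∧ 1 ≤ Real.log t ∧
    20 * t ^ 2 ≤ Real.exp t ∧ 100 ≤ Real.exp t ∧ Real.log t ≤ t ∧ 4 * t ≤ Real.exp t ∧
    12 * ((K : ℝ) + 1) ≤ Real.exp t := by
  obtain ⟨t₀, h⟩ := ev_surv
  refine ⟨max t₀ (12 * ((K : ℝ) + 1)), fun t ht => ?_⟩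
  obtain ⟨h1, h2, h3, h4, h5, h6⟩ := h t ((le_max_left _ _).trans ht)
  refine ⟨h1, h2, h3, h4, h5, h6, ?_⟩
  have := Real.add_one_le_exp t
  have := (le_max_right t₀ (12 * ((K : ℝ) + 1))).trans ht
  linarith

/-- multiples of an element of `S` -/
theorem mult_count (S : Finset ℕ) (hS : ∀ q ∈ S, 1 ≤ q) (H : ℕ) :
    (((Icc 1 H).filter (fun k => ∃ s ∈ S, s ∣ k)).card : ℝ) ≤ H * ∑ q ∈ S, (1 : ℝ) / q := by
  have h1 : (Icc 1 H).filter (fun k => ∃ s ∈ S, s ∣ k) ⊆ S.biUnion (fun s => (Icc 1 H).filter (fun k => s ∣ k)) := by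
    intro k hk
    rw [mem_filter] at hk
    obtain ⟨hk1, s, hs, hd⟩ := hk
    rw [mem_biUnion]
    exact ⟨s, hs, mem_filter.2 ⟨hk1, hd⟩⟩
  have h2 : ((Icc 1 H).filter (fun k => ∃ s ∈ S, s ∣ k)).card ≤ ∑ s ∈ S, ((Icc 1 H).filter (fun k => s ∣ k)).card :=
    (card_le_card h1).trans card_biUnion_le
  calc (((Icc 1 H).filter (fun k => ∃ s ∈ S, s ∣ k)).card : ℝ) ≤
      ∑ s ∈ S, (((Icc 1 H).filter (fun k => s ∣ k)).card : ℝ) := by exact_mod_cast h2
    _ ≤ ∑ s ∈ S, (H : ℝ) * (1 / s) := by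
        apply sum_le_sum
        intro s hs
        have h3 : ((Icc 1 H).filter (fun k => s ∣ k)).card = H / s := by
          have e : Icc 1 H = Ioc 0 H := by ext; simp [mem_Icc, mem_Ioc]; omega
          rw [e, Nat.Ioc_filter_dvd_card_eq_div]
        rw [h3]
        have : ((H / s : ℕ) : ℝ) ≤ (H : ℝ) / s := Nat.cast_div_le
        calc ((H / s : ℕ) : ℝ) ≤ (H : ℝ) / s := this
          _ = _ := by ring
    _ = _ := by rw [mul_sum]

/-- numbers `q * β^a` with `q > y` prime -/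
theorem primepow_count (β y H : ℕ) (hβ : 2 ≤ β) (hy : 2 ≤ y) :
    (((Icc 1 H).filter (fun k => ∃ q a : ℕ, q.Prime ∧ y < q ∧ k = q * β ^ a)).card : ℝ) ≤
      20 * H / Real.log y := by
  set T : ℕ → Finset ℕ := fun a => ((Icc 1 (H / β ^ a)).filter (fun q => q.Prime ∧ y < q)).image (fun q => q * β ^ a) with hT
  have hly : 0 < Real.log y := Real.log_pos (by exact_mod_cast (by omega : 1 < y))
  have h1 : (Icc 1 H).filter (fun k => ∃ q a : ℕ, q.Prime ∧ y < q ∧ k = q * β ^ a) ⊆ (range (H + 1)).biUnion T := by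
    intro k hk
    rw [mem_filter, mem_Icc] at hk
    obtain ⟨⟨hk1, hkH⟩, q, a, hq, hyq, rfl⟩ := hk
    rw [mem_biUnion]
    have hβa : 0 < β ^ a := by positivity
    refine ⟨a, ?_, ?_⟩
    · rw [mem_range]
      have h2 : a < β ^ a := Nat.lt_pow_self (by omega)
      have h3 : β ^ a ≤ q * β ^ a := Nat.le_mul_of_pos_left _ hq.pos
      omega
    · rw [hT]
      simp only [mem_image, mem_filter, mem_Icc]
      exact ⟨q, ⟨⟨hq.pos, (Nat.le_div_iff_mul_le hβa).2 hkH⟩, hq, hyq⟩, rfl⟩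
  have h2 : ∀ a, ((T a).card : ℝ) ≤ 10 * H / Real.log y * (1 / 2) ^ a := by
    intro a
    have hβa : (0 : ℝ) < (β : ℝ) ^ a := by positivity
    have hβ2 : (2 : ℝ) ^ a ≤ (β : ℝ) ^ a := pow_le_pow_left₀ (by norm_num) (by exact_mod_cast hβ) a
    have h3 : ((T a).card : ℝ) ≤ (((Icc 1 (H / β ^ a)).filter (fun q => q.Prime ∧ y < q)).card : ℝ) := by
      exact_mod_cast card_image_le
    refine h3.trans ?_
    by_cases hc : y < H / β ^ a
    · have h4 : (((Icc 1 (H / β ^ a)).filter (fun q => q.Prime ∧ y < q)).card : ℝ) ≤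
        (((Icc 1 (H / β ^ a)).filter Nat.Prime).card : ℝ) := by
        apply Nat.cast_le.2; apply card_le_card
        intro q hq
        rw [mem_filter] at hq ⊢
        exact ⟨hq.1, hq.2.1⟩
      have h5 := primes_le (H / β ^ a) (by omega)
      have h6 : Real.log y ≤ Real.log ((H / β ^ a : ℕ) : ℝ) :=
        Real.log_le_log (by exact_mod_cast (by omega : 0 < y)) (by exact_mod_cast hc.le)
      have h7 : ((H / β ^ a : ℕ) : ℝ) ≤ (H : ℝ) / (β : ℝ) ^ a := by
        have := @Nat.cast_div_le ℝ _ _ _ H (β ^ a)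
        push_cast at this; exact this
      calc (((Icc 1 (H / β ^ a)).filter (fun q => q.Prime ∧ y < q)).card : ℝ)
          ≤ 10 * ((H / β ^ a : ℕ) : ℝ) / Real.log ((H / β ^ a : ℕ) : ℝ) := h4.trans h5
        _ ≤ 10 * ((H : ℝ) / (β : ℝ) ^ a) / Real.log y := by gcongr
        _ ≤ 10 * ((H : ℝ) / (2 : ℝ) ^ a) / Real.log y := by gcongr
        _ = _ := by rw [one_div, inv_pow]; ring
    · have h4 : (Icc 1 (H / β ^ a)).filter (fun q => q.Prime ∧ y < q) = ∅ := by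
        apply filter_eq_empty_iff.2
        intro q hq h5
        rw [mem_Icc] at hq
        omega
      rw [h4]
      simp only [card_empty, Nat.cast_zero]
      positivity
  calc (((Icc 1 H).filter (fun k => ∃ q a : ℕ, q.Prime ∧ y < q ∧ k = q * β ^ a)).card : ℝ)
      ≤ (((range (H + 1)).biUnion T).card : ℝ) := by exact_mod_cast card_le_card h1
    _ ≤ ∑ a ∈ range (H + 1), ((T a).card : ℝ) := by exact_mod_cast card_biUnion_le
    _ ≤ ∑ a ∈ range (H + 1), 10 * H / Real.log y * (1 / 2) ^ a := sum_le_sum fun a _ => h2 a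
    _ = 10 * H / Real.log y * ∑ a ∈ range (H + 1), (1 / 2 : ℝ) ^ a := by rw [mul_sum]
    _ ≤ 10 * H / Real.log y * 2 := by
        have := sum_geometric_two_le (H + 1)
        gcongr
    _ = _ := by ring

end Pool.Agent.H398R2.RK
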